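import Pool.Agent.MP_ed9623_an.H77.SpecW
import Pool.Agent.MP_ed9623_an.H64.Divide

/-! Row Chart: existence of a smooth boundary chart at a convex boundary point. -/

open MeasureTheory Filter Topology Set
open scoped ContDiff

namespace Pool.Agent.MP_ed9623_an.H77

open H64

namespace Chart

theorem dir2 (F : P → ℝ) (x y : P) :
    pd y F x = y.1 * pd (1, 0) F x + y.2 * pd (0, 1) F x := by
  have : y = y.1 • ((1, 0) : P) + y.2 • ((0, 1) : P) := by ext <;> simp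
  conv_lhs => rw [this]
  rw [pd_add_dir, pd_smul_dir, pd_smul_dir]

theorem curve {f : P → ℝ} (hf : ContDiff ℝ (1 : ℕ) f) {a b : ℝ → ℝ} {a' b' r : ℝ}
    (ha : HasDerivAt a a' r) (hb : HasDerivAt b b' r) : HasDerivAt (fun r => f (a r, b r))
      (a' * pd (1, 0) f (a r, b r) + b' * pd (0, 1) f (a r, b r)) r :=
  ((cdg_diff hf le_rfl (a r, b r)).hasFDerivAt.comp_hasDerivAt r (ha.prodMk hb)).congr_deriv
    (dir2 f _ (a', b'))

/-- The rigid motion with origin `x` and first axis `τ`. -/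
def mot (x τ p : P) : P := (x.1 + τ.1 * p.1 - τ.2 * p.2, x.2 + τ.2 * p.1 + τ.1 * p.2)

theorem cd_mot (x τ : P) (n : WithTop ℕ∞) : ContDiff ℝ n (mot x τ) := by
  unfold mot
  fun_prop

theorem mot_zero (x τ : P) : mot x τ (0, 0) = x := by simp [mot]

theorem pd_mot {g : P → ℝ} (hg : ContDiff ℝ (1 : ℕ) g) (x τ e p : P) :
    pd e (fun p => g (mot x τ p)) p = (τ.1 * e.1 - τ.2 * e.2) * pd (1, 0) g (mot x τ p)
      + (τ.2 * e.1 + τ.1 * e.2) * pd (0, 1) g (mot x τ p) := by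
  have l := fun a b : ℝ => ((hasDerivAt_id (0 : ℝ)).mul_const b).const_add a
  refine HD.pd_eq ?_ (cdg_diff (hg.comp (cd_mot _ _ _)) le_rfl p)
  simpa [HD, mot] using curve hg ((((l p.1 e.1).const_mul τ.1).const_add x.1).sub
    ((l p.2 e.2).const_mul τ.2)) ((((l p.1 e.1).const_mul τ.2).const_add x.2).add
    ((l p.2 e.2).const_mul τ.1))

theorem glob {ψ : ℝ → ℝ} (h : ∀ᶠ y in 𝓝 (0 : ℝ), ContDiffAt ℝ ∞ ψ y) :
    ∃ φ, Gam φ ∧ φ =ᶠ[𝓝 0] ψ := by
  obtain ⟨r, hr, hrf⟩ := Metric.eventually_nhds_iff_ball.1 h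
  let b : ContDiffBump (0 : ℝ) := ⟨r / 3, r / 2, by positivity, by linarith⟩
  refine ⟨fun y => b y * ψ y, ⟨contDiff_iff_contDiffAt.2 fun y => ?_,
    b.hasCompactSupport.mul_right⟩, ?_⟩
  · by_cases hy : y ∈ Metric.ball (0 : ℝ) r
    · exact b.contDiff.contDiffAt.mul (hrf y hy)
    · have : y ∉ tsupport b := by
        rw [b.tsupport_eq]
        intro h
        exact hy (Metric.closedBall_subset_ball (by simp only [b]; linarith) h)
      refine (contDiffAt_const (c := (0 : ℝ))).congr_of_eventuallyEq ?_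
      filter_upwards [notMem_tsupport_iff_eventuallyEq.1 this] with w hw
      rw [hw]
      simp
  · filter_upwards [b.eventuallyEq_one] with y hy
    rw [hy]
    simp

theorem inv_of {f : P → ℝ} {u : P} (h : pd (0, 1) f u ≠ 0) :
    (fderiv ℝ f u ∘L ContinuousLinearMap.inr ℝ ℝ ℝ).IsInvertible :=
  ⟨ContinuousLinearEquiv.unitsEquivAut ℝ (Units.mk0 _ h), by ext; simp [pd]⟩

theorem impl {f : P → ℝ} (hf : ContDiff ℝ ∞ f) (f0 : f (0, 0) = 0)
    (f2 : pd (0, 1) f (0, 0) ≠ 0) :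
    ∃ φ, Gam φ ∧ ∀ᶠ p in 𝓝 ((0, 0) : P), (f p = 0 ↔ p.2 = φ p.1) := by
  have cf := (contDiff_infty.1 hf 1).contDiffAt (x := (0, 0))
  obtain ⟨ψ, c, k⟩ : ∃ ψ : ℝ → ℝ, ContDiffAt ℝ (1 : ℕ) ψ 0 ∧
      ∀ᶠ p in 𝓝 ((0, 0) : P), (f p = 0 ↔ ψ p.1 = p.2) :=
    ⟨_, cf.contDiffAt_implicitFunction (by simp) (inv_of f2), by
      simpa only [f0] using cf.eventually_apply_eq_iff_implicitFunction (by simp) (inv_of f2)⟩
  have ψ0 : ψ 0 = 0 := k.self_of_nhds.1 f0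
  have t : Tendsto (fun y => (y, ψ y)) (𝓝 0) (𝓝 ((0, 0) : P)) := by
    simpa [ψ0] using (continuousAt_id.prodMk c.continuousAt).tendsto
  have z : ∀ᶠ y in 𝓝 (0 : ℝ), f (y, ψ y) = 0 := (t.eventually k).mono fun y hy => hy.2 rfl
  have n := t.eventually ((sm_pd hf (0, 1)).continuous.continuousAt.eventually_ne f2)
  obtain ⟨φ, g, e⟩ := glob (ψ := ψ) (by
    filter_upwards [z.eventually_nhds, n, cd_eventually c] with y h1 h2 h3
    have cy := hf.contDiffAt (x := (y, ψ y))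
    refine (cy.contDiffAt_implicitFunction (by simp) (inv_of h2)).congr_of_eventuallyEq ?_
    have t' : Tendsto (fun y => (y, ψ y)) (𝓝 y) (𝓝 (y, ψ y)) :=
      (continuousAt_id.prodMk h3.continuousAt).tendsto
    filter_upwards [h1, t'.eventually
      (cy.eventually_apply_eq_iff_implicitFunction (by simp) (inv_of h2))] with w a b
    exact (b.1 (a.trans h1.self_of_nhds.symm)).symm)
  refine ⟨φ, g, ?_⟩
  filter_upwards [k, continuous_fst.continuousAt.eventually e] with p a b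
  rw [a, b, eq_comm]

theorem graph {f : P → ℝ} (hs : ContDiff ℝ ∞ f) (f0 : f (0, 0) = 0)
    (f1 : pd (1, 0) f (0, 0) = 0) (f2 : pd (0, 1) f (0, 0) < 0)
    (f3 : 0 < pd (1, 0) (pd (1, 0) f) (0, 0)) :
    ∃ φ : ℝ → ℝ, Gam φ ∧ φ 0 = 0 ∧ 0 < deriv (deriv φ) 0 ∧
      ∀ᶠ p in 𝓝 ((0, 0) : P), (f p < 0 ↔ φ p.1 < p.2) ∧ (f p = 0 ↔ p.2 = φ p.1) := by
  have hf := contDiff_infty.1 hs
  have cf := (hf 2).contDiffAt (x := (0, 0))
  obtain ⟨φ, g, k⟩ := impl hs f0 f2.ne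
  have c := contDiff_infty.1 g.sm 2
  have φ0 : φ 0 = 0 := (k.self_of_nhds.1 f0).symm
  have d1 := g.hasDerivAt
  have d2 := g.deriv.hasDerivAt
  have t : Tendsto (fun r => (r, φ r)) (𝓝 0) (𝓝 ((0, 0) : P)) := by
    have := c.continuous
    simpa [φ0] using (by fun_prop : Continuous fun r => (r, φ r)).tendsto 0
  have z1 : ∀ᶠ r in 𝓝 (0 : ℝ),
      1 * pd (1, 0) f (r, φ r) + deriv φ r * pd (0, 1) f (r, φ r) = 0 := by
    filter_upwards [(t.eventually k).eventually_nhds] with r hr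
    exact (curve (hf 1) (hasDerivAt_id r) (d1 r)).unique
      ((hasDerivAt_const r 0).congr_of_eventuallyEq (hr.mono fun s hs => hs.2 rfl))
  have φ1 : deriv φ 0 = 0 := by
    have := z1.self_of_nhds
    rw [φ0, f1] at this
    exact (mul_eq_zero.1 (by linarith)).resolve_right f2.ne
  have p := fun e => contDiff_pd (n := 1) e (hf 2)
  have z2 := (((curve (p _) (hasDerivAt_id 0) (d1 0)).const_mul 1).add ((d2 0).mul
    (curve (p _) (hasDerivAt_id 0) (d1 0)))).unique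
      ((hasDerivAt_const 0 0).congr_of_eventuallyEq z1)
  simp only [id, φ0, φ1] at z2
  have φ2 : 0 < deriv (deriv φ) 0 := by nlinarith
  have cr : ContDiff ℝ (2 : ℕ) fun p : P => p.2 - φ p.1 := by fun_prop
  have q2 : ∀ p, pd (0, 1) (fun p : P => p.2 - φ p.1) p = 1 := fun p =>
    HD.pd_eq (by simpa [HD] using ((hasDerivAt_id (0 : ℝ)).const_add p.2).sub_const (φ p.1))
      (cdg_diff cr one_le_two p)
  obtain ⟨W, q0, q1⟩ := exists_div (n := 1) (z₀ := (0, 0)) cr.contDiffAt cf (by simp [φ0])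
    (fun h => by simpa [pd, h] using q2 (0, 0)) (k.mono fun p a b => a.2 (sub_eq_zero.1 b))
  have q3 : W (0, 0) < 0 := by
    rw [pd_congr_pt _ q1, pd_mul _ (cdg_diff cr one_le_two _) (cd_diff q0 le_rfl), q2] at f2
    simpa [φ0] using f2
  refine ⟨φ, g, φ0, φ2, ?_⟩
  filter_upwards [k, q1, q0.continuousAt.eventually (gt_mem_nhds q3)] with p a b d
  refine ⟨⟨fun h => ?_, fun h => b ▸ mul_neg_of_pos_of_neg (sub_pos.2 h) d⟩, a⟩
  rw [b] at h
  exact sub_pos.1 (pos_of_mul_neg_left h d.le)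

end Chart

open Chart in
theorem rowChart : OfChart := by
  intro ρ x₀ hs h0 hk
  have hρ := contDiff_infty.1 hs
  obtain ⟨m, hm⟩ : ∃ m, m = Real.sqrt (pd (1, 0) ρ x₀ ^ 2 + pd (0, 1) ρ x₀ ^ 2) := ⟨_, rfl⟩
  have m1 : 0 ≤ m := hm ▸ Real.sqrt_nonneg _
  have m2 : m ^ 2 = pd (1, 0) ρ x₀ ^ 2 + pd (0, 1) ρ x₀ ^ 2 := hm ▸ Real.sq_sqrt (by positivity)
  unfold curvature at hk
  rw [← hm] at hk
  obtain ⟨hk, m3⟩ := (div_pos_iff.1 hk).resolve_right fun h => h.2.not_ge (pow_nonneg m1 3)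
  have m0 : 0 < m := m1.lt_of_ne fun h => by simp [← h] at m3
  obtain ⟨τ, t1, t2⟩ : ∃ τ : P, pd (1, 0) ρ x₀ = m * τ.2 ∧ pd (0, 1) ρ x₀ = -m * τ.1 :=
    ⟨(-pd (0, 1) ρ x₀ / m, pd (1, 0) ρ x₀ / m), by field_simp, by field_simp⟩
  have t3 : τ.1 ^ 2 + τ.2 ^ 2 = 1 := mul_left_cancel₀ (pow_pos m0 2).ne' (by
    rw [t1, t2] at m2
    linear_combination -m2)
  have p := fun e => contDiff_pd (n := 1) e (hρ 2)
  obtain ⟨φ, g, φ0, φ2, h⟩ := graph (f := fun p => ρ (mot x₀ τ p))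
    (hs.comp (cd_mot _ _ _)) (by rwa [mot_zero])
    (by rw [pd_mot (hρ 1), mot_zero, t1, t2]; ring)
    (by rw [pd_mot (hρ 1), mot_zero, t1, t2]; nlinarith) (by
      have d : ∀ e, DifferentiableAt ℝ (fun y => pd e ρ (mot x₀ τ y)) (0, 0) :=
        fun e => cdg_diff ((p e).comp (cd_mot x₀ τ _)) le_rfl (0, 0)
      rw [funext (pd_mot (hρ 1) x₀ τ (1, 0)), pd_add _ ((d _).const_mul _) ((d _).const_mul _),
        pd_const_mul _ _ (d _), pd_const_mul _ _ (d _), pd_mot (p _), pd_mot (p _), mot_zero,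
        pd_comm (0, 1) (1, 0) (hρ 2).contDiffAt]
      rw [t1, t2] at hk
      refine pos_of_mul_pos_left (b := m ^ 2) (hk.trans_eq ?_) (by positivity)
      ring)
  have t : Tendsto (fun p : P => (p.1, p.2 + φ p.1)) (𝓝 0) (𝓝 ((0, 0) : P)) := by
    have := g.sm.continuous
    simpa [φ0] using (by fun_prop : Continuous fun p : P => (p.1, p.2 + φ p.1)).tendsto 0
  obtain ⟨r, r0, hr⟩ := Metric.eventually_nhds_iff_ball.1 (t.eventually h)
  rw [← Q_eq_ball] at hr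
  refine ⟨τ, φ, r, ⟨t3, g, r0, le_rfl, φ0, fun p hp => ?_⟩, φ2, fun p hp => ?_⟩
  · exact (hr p hp).1.trans (lt_add_iff_pos_left _)
  · exact (hr p hp).2.trans add_eq_right

end Pool.Agent.MP_ed9623_an.H77
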