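import Pool.Agent.MP_ed9623_an.H77.SpecX

/-! Green's formula and linear functionals which kill gradients. -/

open MeasureTheory Filter Topology Set
open scoped ContDiff

namespace Pool.Agent.MP_ed9623_an.H77

open H64

namespace DefL

variable {γ : ℝ → ℝ} {r : ℝ} {φ : P → ℝ} {ζ : Fin 2 → P → ℝ}

theorem hd0 (hφ : ContDiff ℝ ∞ φ) (y s : ℝ) :
    HasDerivAt (fun y => φ (y, s)) (pd (ee 0) φ (y, s)) y :=
  (sm_diff hφ (y, s)).hasFDerivAt.comp_hasDerivAt y
    ((hasDerivAt_id y).prodMk (hasDerivAt_const y s))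

theorem hd1 (hφ : ContDiff ℝ ∞ φ) (y s : ℝ) :
    HasDerivAt (fun s => φ (y, s)) (pd (ee 1) φ (y, s)) s :=
  (sm_diff hφ (y, s)).hasFDerivAt.comp_hasDerivAt s
    ((hasDerivAt_const s y).prodMk (hasDerivAt_id s))

theorem cs0 (hφ : Test (Q r) φ) (s : ℝ) : HasCompactSupport fun y => φ (y, s) :=
  HasCompactSupport.intro (isCompact_Icc (a := -r) (b := r)) fun _ hy =>
    hφ.off fun h => hy (Ioo_subset_Icc_self h.1)

theorem cs1 (hφ : Test (Q r) φ) (y : ℝ) : HasCompactSupport fun s => φ (y, s) :=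
  HasCompactSupport.intro (isCompact_Icc (a := -r) (b := r)) fun _ hs =>
    hφ.off fun h => hs (Ioo_subset_Icc_self h.2)

theorem int (hφ : Test (Q r) φ) : Integrable φ := hφ.ct.integrable_of_hasCompactSupport hφ.2.1

theorem half (hφ : Test (Q r) φ) : ∫ p in Qp 0 r, φ p =
    ∫ p, φ p ∂((volume.restrict univ).prod (volume.restrict (Ioi (0 : ℝ)))) := by
  rw [Measure.prod_restrict, ← Measure.volume_eq_prod]
  refine (setIntegral_eq_of_subset_of_forall_sdiff_eq_zero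
    (MeasurableSet.univ.prod measurableSet_Ioi) (fun p hp => ⟨trivial, hp.2⟩)
    fun p hp => hφ.off fun h => hp.2 ?_).symm
  exact ⟨h, hp.1.2⟩

theorem inth (hφ : Test (Q r) φ) :
    Integrable φ ((volume.restrict univ).prod (volume.restrict (Ioi (0 : ℝ)))) := by
  rw [Measure.prod_restrict, ← Measure.volume_eq_prod]
  exact (int hφ).integrableOn

theorem g0 (hφ : Test (Q r) φ) : ∫ p in Qp 0 r, pd (ee 0) φ p = 0 := by
  rw [half (hφ.pd _), integral_prod_symm _ (inth (hφ.pd _)), Measure.restrict_univ]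
  refine integral_eq_zero_of_ae (Eventually.of_forall fun s => ?_)
  exact integral_eq_zero_of_hasDerivAt_of_integrable (fun y => hd0 hφ.1 y s)
    (((hφ.pd _).ct.comp (by fun_prop)).integrable_of_hasCompactSupport (cs0 (hφ.pd _) s))
    ((hφ.ct.comp (by fun_prop)).integrable_of_hasCompactSupport (cs0 hφ s))

theorem g1 (hφ : Test (Q r) φ) : ∫ p in Qp 0 r, pd (ee 1) φ p = -∫ y, φ (y, 0) := by
  rw [half (hφ.pd _), integral_prod _ (inth (hφ.pd _)), Measure.restrict_univ, ← integral_neg]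
  refine integral_congr_ae (Eventually.of_forall fun y => ?_)
  have := (cs1 hφ y).integral_Ioi_deriv_eq (f := fun s => φ (y, s))
    ((contDiff_infty.1 hφ.1 1).comp (contDiff_const.prodMk contDiff_id)) 0
  simpa only [fun s => (hd1 hφ.1 y s).deriv] using this

theorem green (hγ : Gam γ) (hζ : ∀ j, Test (Q r) (ζ j)) :
    ∫ p in Qp 0 r, crl γ ζ p = ∫ y, (ζ 0 (y, 0) + deriv γ y * ζ 1 (y, 0)) := by
  have h1 := (hζ 1).smul hγ.deriv.smP
  have h2 := (hζ 0).add h1
  have e : crl γ ζ = fun p => pd (ee 0) (ζ 1) p -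
      pd (ee 1) (fun p : P => ζ 0 p + deriv γ p.1 * ζ 1 p) p := funext fun p => by
    rw [pd_add _ (sm_diff (hζ 0).1 p) (sm_diff h1.1 p),
      pd_mul _ (sm_diff hγ.deriv.smP p) (sm_diff (hζ 1).1 p), hγ.deriv.pd1, crl, dd0, dd1]
    ring
  rw [e, integral_sub (int ((hζ 1).pd _)).integrableOn (int (h2.pd _)).integrableOn, g0 (hζ 1),
    g1 h2, zero_sub, neg_neg]

theorem ext (hr : 0 < r) {β : ℝ → ℝ} (h1 : ContDiff ℝ ∞ β) (h2 : HasCompactSupport β)
    (h3 : tsupport β ⊆ Ioo (-r) r) : ∃ h, Test (Q r) h ∧ ∀ y, h (y, 0) = β y ∧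
      pd (ee 0) h (y, 0) = deriv β y ∧ pd (ee 1) h (y, 0) = 0 := by
  let η : ContDiffBump (0 : ℝ) := ⟨r / 4, r / 2, by linarith, by linarith⟩
  have hs : ContDiff ℝ ∞ fun p : P => β p.1 * η p.2 :=
    (h1.comp contDiff_fst).mul (η.contDiff.comp contDiff_snd)
  have ht : tsupport (fun p : P => β p.1 * η p.2) ⊆ tsupport β ×ˢ tsupport η :=
    closure_minimal (fun p hp => ⟨subset_tsupport _ (left_ne_zero_of_mul hp),
      subset_tsupport _ (right_ne_zero_of_mul hp)⟩) ((isClosed_tsupport _).prod (isClosed_tsupport _))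
  have h0 : η 0 = 1 := η.one_of_mem_closedBall (Metric.mem_closedBall_self η.rIn_pos.le)
  refine ⟨_, ⟨hs, (IsCompact.prod h2 η.hasCompactSupport).of_isClosed_subset (isClosed_tsupport _)
    ht, ht.trans (prod_mono h3 ?_)⟩, fun y => ⟨by simp [h0], HD.pd_eq ?_ (sm_diff hs _),
      HD.pd_eq ?_ (sm_diff hs _)⟩⟩
  · rw [η.tsupport_eq, Real.closedBall_eq_Icc]
    exact Icc_subset_Ioo (by simp [η]; linarith) (by simp [η]; linarith)
  · have := (h1.differentiable (by simp) (y + 0)).hasDerivAt.comp (0 : ℝ)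
      ((hasDerivAt_id (0 : ℝ)).const_add y)
    simpa [HD, ee, h0, Function.comp_def] using this
  · have := ((hasDerivAt_const (0 : ℝ) (1 : ℝ)).congr_of_eventuallyEq
      η.eventuallyEq_one).const_mul (β y)
    simpa [HD, ee] using this

theorem prim (hr : 0 < r) (hφ : Test (Q r) φ) (h0 : ∫ y, φ (y, 0) = 0) :
    ∃ H : ℝ → ℝ, ContDiff ℝ ∞ H ∧ HasCompactSupport H ∧ tsupport H ⊆ Ioo (-r) r ∧
      ∀ y, deriv H y = φ (y, 0) := by
  obtain ⟨r', ⟨a, b⟩, c⟩ := exists_pos_lt_subset_ball hr (isClosed_tsupport φ)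
    (Q_eq_ball r ▸ hφ.2.2)
  have hφ' : Test (Q r') φ := ⟨hφ.1, hφ.2.1, Q_eq_ball r' ▸ c⟩
  have s1 : ContDiff ℝ ∞ fun y => φ (y, 0) := hφ.1.comp (contDiff_id.prodMk contDiff_const)
  have d : deriv (fun y => ∫ u in (-r')..y, φ (u, 0)) = fun y => φ (y, 0) :=
    funext fun y => Continuous.deriv_integral _ s1.continuous _ y
  have z : ∀ y, y ∉ Icc (-r') r' → ∫ u in (-r')..y, φ (u, 0) = 0 := fun y hy => by
    rcases lt_or_ge y (-r') with h | h
    · rw [intervalIntegral.integral_congr (g := fun _ => 0) fun u hu => hφ'.off fun h' => ?_]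
      · simp
      · rw [uIcc_of_ge h.le] at hu
        exact hu.2.not_gt h'.1.1
    · rw [intervalIntegral.integral_eq_integral_of_support_subset fun u hu => ?_, h0]
      have h1 : (u, (0 : ℝ)) ∈ Q r' := by_contra fun h' => hu (hφ'.off h')
      exact ⟨h1.1.1, h1.1.2.le.trans (not_le.1 fun h' => hy ⟨h, h'⟩).le⟩
  refine ⟨fun y => ∫ u in (-r')..y, φ (u, 0), contDiff_infty_iff_deriv.2 ⟨fun y =>
    (s1.continuous.integral_hasStrictDerivAt _ y).hasDerivAt.differentiableAt, by rwa [d]⟩,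
    HasCompactSupport.intro isCompact_Icc z, (closure_minimal (fun y hy => ?_) isClosed_Icc).trans
      (Icc_subset_Ioo (neg_lt_neg b) b), congrFun d⟩
  exact by_contra fun h => hy (z y h)

theorem pot (hγ : Gam γ) (hr : 0 < r) (hζ : ∀ j, Test (Q r) (ζ j))
    (h0 : ∫ p in Qp 0 r, crl γ ζ p = 0) :
    ∃ h, Test (Q r) h ∧ ∀ j y, grad γ h j (y, 0) = ζ j (y, 0) := by
  rw [green hγ hζ] at h0
  obtain ⟨H, a, b, c, d⟩ := prim hr ((hζ 0).add ((hζ 1).smul hγ.deriv.smP)) h0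
  obtain ⟨k, k1, k2⟩ := ext hr a b c
  have h1 : Test (Q r) fun p : P => p.2 * ζ 1 p := (hζ 1).smul contDiff_snd
  have e : ∀ (i : Fin 2) y, pd (ee i) (fun p : P => k p + p.2 * ζ 1 p) (y, 0) =
      pd (ee i) k (y, 0) + (ee i).2 * ζ 1 (y, 0) := fun i y => by
    rw [pd_add _ (sm_diff k1.1 _) (sm_diff h1.1 _),
      pd_mul _ differentiableAt_snd (sm_diff (hζ 1).1 _)]
    simp [pd, fderiv_snd]
  refine ⟨_, k1.add h1, fun j y => ?_⟩
  fin_cases j
  · change dd γ 0 _ _ = ζ 0 _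
    rw [dd0, e, e, (k2 y).2.1, (k2 y).2.2, d]
    simp [ee]
  · change pd (ee 1) _ _ = ζ 1 _
    rw [e, (k2 y).2.2]
    simp [ee]

end DefL

theorem rowDefL : OfDefL := by
  intro _ γ r hγ hr
  let η : ContDiffBump (0 : ℝ) := ⟨r / 4, r / 2, by linarith, by linarith⟩
  obtain ⟨k, k1, k2⟩ := DefL.ext hr (β := η.normed volume) η.contDiff_normed
    η.hasCompactSupport_normed (by
      rw [η.tsupport_normed_eq, Real.closedBall_eq_Icc]
      exact Icc_subset_Ioo (by simp [η]; linarith) (by simp [η]; linarith))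
  have h0 : ∀ j, Test (Q r) ((Pi.single 0 k : Fin 2 → P → ℝ) j) := test_single k1 0
  have h1 : ∫ p in Qp 0 r, crl γ (Pi.single 0 k) p = 1 := by
    rw [DefL.green hγ h0]
    simpa [fun y => (k2 y).1] using η.integral_normed (μ := volume)
  refine ⟨Pi.single 0 k, h0, h1, fun Λ a b c ζ hζ => ?_⟩
  set t := ∫ p in Qp 0 r, crl γ ζ p with ht
  have h2 := fun j => (hζ j).add ((h0 j).cmul (-t))
  obtain ⟨h, h3, h4⟩ := DefL.pot hγ hr h2 (by
    simp only [crl_lin γ (fun j => (hζ j).1) fun j => (h0 j).1]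
    rw [integral_add (DefL.int (test_crl hγ hζ)).integrableOn
      (DefL.int ((test_crl hγ h0).cmul _)).integrableOn, integral_const_mul, h1, ← ht]
    ring)
  have h5 : ∀ j, Test (Q r) (grad γ h j) := fun j => h3.dd hγ j
  have h6 := b _ fun j => ⟨(h2 j).add ((h5 j).cmul (-1)), fun y => by rw [h4]; ring⟩
  rw [a _ _ _ h2 h5, a _ _ _ hζ h0, c h h3] at h6
  linarith

end Pool.Agent.MP_ed9623_an.H77
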