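import Pool.Agent.MP_ed9623_an.H77.SpecZ

/-! Row Z2: the representative in the plane. -/

open MeasureTheory Filter Topology Set
open scoped ContDiff

namespace Pool.Agent.MP_ed9623_an.H77

open H64

namespace Z2

theorem eq_on {O : Set P} (hO : IsOpen O) {F G f : P → ℝ} (hF : Continuous F) (hG : Continuous G)
    (h : ∀ᵐ p, p ∈ O → F p = f p) (h' : ∀ᵐ p, p ∈ O → G p = f p) : EqOn F G O := by
  refine Measure.eqOn_open_of_ae_eq (μ := volume) ((ae_restrict_iff' hO.measurableSet).2 ?_) hO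
    hF.continuousOn hG.continuousOn
  filter_upwards [h, h'] with p a b hp
  rw [a hp, b hp]

theorem trace (hT : ThS) (hZ : ZtS) {Ω : Set P} {x τ : P} {γ : ℝ → ℝ} {r r' : ℝ} {v : E6}
    {j : Fin 2} {f F : P → ℝ} (hc : Ch Ω x τ γ 0 r) (h0 : 0 < r') (hr : r' ≤ r) (hv : v ∈ YZ Ω)
    (hf : f =ᵐ[volume] fun p => vl v j (Th x τ γ p)) (hF : Continuous F)
    (e : ∀ᵐ p, p ∈ Qp 0 r' → F p = f p) : ∀ y ∈ Ioo (-r') r', F (y, 0) = 0 := by
  obtain ⟨mp, -, -, -, -, h1⟩ := hT x τ γ hc.un hc.gam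
  have H := (h1 _ _ (hv.1 j)).congr hf.symm fun _ => EventuallyEq.rfl
  obtain ⟨-, b, -, -, -, -, l⟩ := hZ r' f _ h0 H.m (H.md 1)
  refine (l (b (H.wd1.mono (subset_univ _)) ?_)).2 F hF e
  filter_upwards [hf, mp.quasiMeasurePreserving.ae (hv.2 (j, none))] with p a c hp
  rw [a]
  exact c fun h => hp.2 ⟨hp.1, (hc.mem p (Q_mono hr hp.1)).1 h⟩

end Z2

theorem rowZ2 : OfZ2 := by
  intro hT hZ hR ρ x τ γ r t₀ ε₀ w I T _ hc hb hw hY hI ht ε0 hTf hg
  have r0 := hc.r0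
  have rep : ∀ (k : ℕ) (j : Fin 2), ∀ t₁ ∈ I, ∃ F : ST → ℝ, ContDiff ℝ k F ∧
      ∀ᶠ t in 𝓝 t₁, ∀ᵐ p, p ∈ Qp 0 (r / 2) → F (t, p) = T (w t (j, none)) p := by
    intro k j t₁ h₁
    rw [Qp_zero (by linarith : 0 ≤ r / 2)]
    refine hR.1 (-r) r 0 r (-(r / 2)) (r / 2) (r / 2) t₁ k (fun t => T (w t (j, none)))
      (by linarith) (by linarith) (by linarith) (T.contDiff.comp (sm_cp hw (j, none))) ?_
    intro m s hs
    rw [← Qp_zero r0.le, mem_singleton_iff.1 hs]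
    exact hg (k + 3) j m t₁ h₁
  choose F c6 hF using fun j => rep 6 j t₀ ht
  obtain ⟨δ, δ0, hδ⟩ := Metric.eventually_nhds_iff_ball.1
    ((eventually_all.2 hF).and (hI.mem_nhds ht))
  let β : ContDiffBump t₀ := ⟨δ / 2, δ, by positivity, by linarith⟩
  let χ : ContDiffBump (0 : P) := ⟨r / 4, r / 2, by positivity, by linarith⟩
  obtain ⟨η, η0, hη⟩ := Metric.mem_nhds_iff.1 (hc.nhds (show 0 < r / 4 by positivity)).2
  obtain ⟨ε, e0, e1, e2, e3⟩ : ∃ ε, 0 < ε ∧ ε ≤ ε₀ ∧ ε ≤ δ / 2 ∧ ε ≤ η :=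
    ⟨min ε₀ (min (δ / 2) η), by positivity, min_le_left _ _,
      (min_le_right _ _).trans (min_le_left _ _), (min_le_right _ _).trans (min_le_right _ _)⟩
  have sT := sm_Thi hc.gam x τ
  have cT : ∀ k : ℕ, ContDiff ℝ k fun y : ST => ((y.1, Thi x τ γ y.2) : ST) := fun k =>
    contDiff_fst.prodMk ((contDiff_infty.1 sT k).comp contDiff_snd)
  have sl : ∀ t : ℝ, Continuous fun p : P => ((t, p) : ST) := fun t => by fun_prop
  have bt : ∀ t ∈ Metric.ball t₀ ε, t ∈ Metric.ball t₀ δ := fun t h =>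
    Metric.ball_subset_ball (by linarith) h
  have one : ∀ t ∈ Metric.ball t₀ ε, ∀ q ∈ Metric.ball x ε, β t * χ (Thi x τ γ q) = 1 := by
    intro t h q hq
    have h1 := hη (Metric.ball_subset_ball e3 hq)
    rw [mem_preimage, Q_eq_ball] at h1
    rw [β.one_of_mem_closedBall (Metric.ball_subset_closedBall (Metric.ball_subset_ball e2 h)),
      χ.one_of_mem_closedBall (Metric.ball_subset_closedBall h1), one_mul]
  have up : ∀ q ∈ Metric.ball x ε, ρ q < 0 → Thi x τ γ q ∈ Qp 0 (r / 2) := by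
    intro q hq h
    have h1 : Thi x τ γ q ∈ Q (r / 4) := hη (Metric.ball_subset_ball e3 hq)
    refine ⟨Q_mono (by linarith) h1, (hc.mem _ (Q_mono (by linarith) h1)).1 ?_⟩
    rw [Th_Thi hc.un]
    exact h
  refine ⟨ε, fun j y => β y.1 * χ (Thi x τ γ y.2) * F j (y.1, Thi x τ γ y.2), e0, e1,
    fun j => ?_, fun j y hy => ?_, fun j y h1 h2 k => ?_, fun j t h => ?_⟩
  · exact ((β.contDiff.comp contDiff_fst).mul (χ.contDiff.comp
      ((contDiff_infty.1 sT 6).comp contDiff_snd))).mul ((c6 j).comp (cT 6))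
  · by_cases h1 : β y.1 = 0
    · rw [h1, zero_mul, zero_mul]
    by_cases h2 : χ (Thi x τ γ y.2) = 0
    · rw [h2, mul_zero, zero_mul]
    have h3 : y.1 ∈ Metric.ball t₀ δ := by
      have : y.1 ∈ Function.support β := h1
      rwa [β.support_eq] at this
    have h4 : Thi x τ γ y.2 ∈ Q (r / 2) := by
      have : Thi x τ γ y.2 ∈ Function.support χ := h2
      rwa [χ.support_eq, ← Q_eq_ball] at this
    have h5 := (hb _ (Q_mono (by linarith) h4)).1 (by rwa [Th_Thi hc.un])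
    have h6 := Z2.trace hT hZ hc (show 0 < r / 2 by positivity) (by linarith) (hY y.1)
      (hTf (w y.1 (j, none))) ((c6 j).continuous.comp (sl y.1)) ((hδ _ h3).1 j) _ h4.1
    have h7 : Thi x τ γ y.2 = ((Thi x τ γ y.2).1, 0) := Prod.ext rfl h5
    refine mul_eq_zero_of_right _ ?_
    rw [h7]
    exact h6
  · obtain ⟨G, cG, hG⟩ := rep k j y.1 (hδ _ (bt _ h1)).2
    refine ⟨fun y => G (y.1, Thi x τ γ y.2), (cG.comp (cT k)).contDiffAt, ?_⟩
    filter_upwards [self_mem_nhdsWithin,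
      nhdsWithin_le_nhds (continuous_fst.continuousAt.eventually hG),
      nhdsWithin_le_nhds (continuous_fst.continuousAt.eventually
        (Metric.isOpen_ball.eventually_mem h1)),
      nhdsWithin_le_nhds (continuous_snd.continuousAt.eventually
        (Metric.isOpen_ball.eventually_mem h2))] with z a b c d
    rw [one _ c _ d, one_mul]
    exact Z2.eq_on (isOpen_Qp 0 (r / 2)) ((c6 j).continuous.comp (sl z.1))
      (cG.continuous.comp (sl z.1)) ((hδ _ (bt _ c)).1 j) b (up _ d a)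
  · have mp := (hT x τ γ hc.un hc.gam).2.1.quasiMeasurePreserving
    filter_upwards [mp.ae ((hδ _ (bt _ h)).1 j), mp.ae (hTf (w t (j, none)))] with q a b hq
    rw [one _ h _ hq.2, one_mul, a (up _ hq.2 hq.1), b, Th_Thi hc.un]
    rfl

end Pool.Agent.MP_ed9623_an.H77
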