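import Pool.Agent.MP_ed9623_an.H77.SpecA

/-! Row Pl: the Gronwall estimate with an integrable coefficient. -/

open MeasureTheory Filter Topology Set
open scoped ContDiff InnerProductSpace

namespace Pool.Agent.MP_ed9623_an.H77

namespace Pl

variable {E k : ℝ → ℝ}

theorem sub_ii {f : ℝ → ℝ} {s t p q : ℝ} (h : IntervalIntegrable f volume s t) (hst : s ≤ t)
    (hp : p ∈ Icc s t) (hq : q ∈ Icc s t) : IntervalIntegrable f volume p q :=
  h.mono_set (by
    rw [uIcc_of_le hst]
    exact ordConnected_Icc.uIcc_subset hp hq)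

theorem int_le {s t M : ℝ} (hst : s ≤ t) (hE : ContinuousOn E (Icc s t))
    (hk : IntervalIntegrable k volume s t) (k0 : ∀ r, 0 ≤ k r) (hM : ∀ r ∈ Icc s t, E r ≤ M) :
    ∫ r in s..t, k r * E r ≤ (∫ r in s..t, k r) * M := by
  rw [← intervalIntegral.integral_mul_const]
  refine intervalIntegral.integral_mono_on hst
    (hk.mul_continuousOn (by rwa [uIcc_of_le hst])) (hk.mul_const M) fun x hx => ?_
  exact mul_le_mul_of_nonneg_left (hM x hx) (k0 x)

theorem int_mono {s t r : ℝ} (hk : IntervalIntegrable k volume s t) (k0 : ∀ r, 0 ≤ k r)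
    (hr : r ∈ Icc s t) : ∫ x in s..r, k x ≤ ∫ x in s..t, k x := by
  have hst : s ≤ t := hr.1.trans hr.2
  have h1 := sub_ii hk hst (left_mem_Icc.2 hst) hr
  have h2 := sub_ii hk hst hr (right_mem_Icc.2 hst)
  rw [← intervalIntegral.integral_add_adjacent_intervals h1 h2]
  have := intervalIntegral.integral_nonneg (μ := volume) hr.2 fun u _ => k0 u
  linarith

theorem small {s t a : ℝ} (hst : s ≤ t) (hE : ContinuousOn E (Icc s t)) (E0 : ∀ r, 0 ≤ E r)
    (hk : IntervalIntegrable k volume s t) (k0 : ∀ r, 0 ≤ k r) (hK : ∫ r in s..t, k r ≤ 1 / 2)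
    (h : ∀ r ∈ Icc s t, E r ≤ a + ∫ x in s..r, k x * E x) : ∀ r ∈ Icc s t, E r ≤ 2 * a := by
  obtain ⟨p, hp, hM⟩ := isCompact_Icc.exists_isMaxOn (nonempty_Icc.2 hst) hE
  have h1 := h p hp
  have h2 := int_le (M := E p) hp.1 (hE.mono (Icc_subset_Icc_right hp.2))
    (sub_ii hk hst (left_mem_Icc.2 hst) hp) k0 fun r hr => hM (Icc_subset_Icc_right hp.2 hr)
  have h3 := mul_le_mul_of_nonneg_right ((int_mono hk k0 hp).trans hK) (E0 p)
  intro r hr
  have h4 : E r ≤ E p := hM hr
  linarith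

theorem gron (E0 : ∀ r, 0 ≤ E r) (k0 : ∀ r, 0 ≤ k r) (N : ℕ) : ∀ {s t a : ℝ}, s ≤ t →
    ContinuousOn E (Icc s t) → IntervalIntegrable k volume s t →
    ∫ r in s..t, k r ≤ (N + 1) / 2 → (∀ r ∈ Icc s t, E r ≤ a + ∫ x in s..r, k x * E x) →
    ∀ r ∈ Icc s t, E r ≤ 2 ^ (N + 1) * a := by
  induction N with
  | zero =>
    intro s t a hst hE hk hK h r hr
    have := small hst hE E0 hk k0 (by simpa using hK) h r hr
    simpa using this
  | succ N ih =>
    intro s t a hst hE hk hK h
    have a0 : 0 ≤ a := by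
      have := h s (left_mem_Icc.2 hst)
      rw [intervalIntegral.integral_same] at this
      linarith [E0 s]
    have two : (2 : ℝ) * a ≤ 2 ^ (N + 1 + 1) * a :=
      mul_le_mul_of_nonneg_right (le_self_pow₀ one_le_two (by omega)) a0
    by_cases hs : ∫ r in s..t, k r ≤ 1 / 2
    · exact fun r hr => (small hst hE E0 hk k0 hs h r hr).trans two
    have hc : ContinuousOn (fun r => ∫ x in s..r, k x) (Icc s t) := by
      have := intervalIntegral.continuousOn_primitive_interval' hk left_mem_uIcc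
      rwa [uIcc_of_le hst] at this
    obtain ⟨p, hp, e⟩ : (1 / 2 : ℝ) ∈ (fun r => ∫ x in s..r, k x) '' Icc s t :=
      intermediate_value_Icc hst hc ⟨by simp, (not_le.1 hs).le⟩
    beta_reduce at e
    have ls := left_mem_Icc.2 hst
    have lt := right_mem_Icc.2 hst
    have hE1 := hE.mono (Icc_subset_Icc_right hp.2)
    have hE2 := hE.mono (Icc_subset_Icc_left hp.1)
    have hk1 := sub_ii hk hst ls hp
    have hk2 := sub_ii hk hst hp lt
    have b1 := small hp.1 hE1 E0 hk1 k0 e.le fun r hr => h r (Icc_subset_Icc_right hp.2 hr)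
    have b2 := int_le hp.1 hE1 hk1 k0 b1
    have hkE : IntervalIntegrable (fun x => k x * E x) volume s t :=
      hk.mul_continuousOn (by rwa [uIcc_of_le hst])
    have b3 : ∀ r ∈ Icc p t, E r ≤ 2 ^ (N + 1) * (2 * a) := by
      refine ih hp.2 hE2 hk2 ?_ fun r hr => ?_
      · have := intervalIntegral.integral_add_adjacent_intervals hk1 hk2
        push_cast at hK
        linarith
      · have hr' := Icc_subset_Icc_left hp.1 hr
        have := intervalIntegral.integral_add_adjacent_intervals (sub_ii hkE hst ls hp)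
          (sub_ii hkE hst hp hr')
        have h1 := h r hr'
        rw [e] at b2
        linarith
    intro r hr
    rcases le_total r p with h1 | h1
    · exact (b1 r ⟨hr.1, h1⟩).trans two
    · exact (b3 r ⟨h1, hr.2⟩).trans_eq (by ring)

theorem ii_inner {V : Type} [NormedAddCommGroup V] [InnerProductSpace ℝ V] {I : Set ℝ}
    {Z G : ℝ → V} (hG : Loc2 I G) (hZ : Loc2 I Z) {s t : ℝ} (hs : s ∈ I) (ht : t ∈ I)
    (hst : s ≤ t) : IntervalIntegrable (fun r => 2 * ⟪G r, Z r⟫_ℝ) volume s t := by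
  refine IntervalIntegrable.const_mul ?_ 2
  rw [intervalIntegrable_iff_integrableOn_Ioo_of_le hst]
  refine Integrable.mono' (MemLp.integrable_mul (hG s hs t ht).norm (hZ s hs t ht).norm)
    ((hG s hs t ht).1.inner (hZ s hs t ht).1) (Eventually.of_forall fun r => ?_)
  exact norm_inner_le_norm _ _

end Pl

theorem rowPl : OfPl := by
  intro lm K
  obtain ⟨N, hN⟩ := exists_nat_ge (2 * K)
  refine ⟨(1 + |K|) * 2 ^ (N + 1), by positivity, ?_⟩
  intro H V _ _ _ _ _ _ ι I y Z G c s t k m hI hL c0 hs ht hst hk hm k0 m0 hK hd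
  have ls := left_mem_Icc.2 hst
  have lt := right_mem_Icc.2 hst
  have hE : ContinuousOn (fun r => ‖y r‖ ^ 2) (Icc s t) :=
    (hL.cont.mono (hI.Icc hs ht)).norm.pow 2
  have hkE : IntervalIntegrable (fun x => k x * ‖y x‖ ^ 2) volume s t :=
    hk.mul_continuousOn (by rwa [uIcc_of_le hst])
  have key : ∀ r ∈ Icc s t, ‖y r‖ ^ 2 + c * ∫ x in s..r, ‖Z x‖ ^ 2 ≤
      (‖y s‖ ^ 2 + ∫ r in s..t, m r) + ∫ x in s..r, k x * ‖y x‖ ^ 2 := by
    intro r hr
    have hrI := hI.Icc hs ht hr
    have e := lm hI hL s hs r hrI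
    have i1 := (hL.lZ.ii_sq hs hrI).const_mul (-c)
    have i2 := Pl.sub_ii hkE hst ls hr
    have i3 := Pl.sub_ii hm hst ls hr
    have le := intervalIntegral.integral_mono_ae_restrict hr.1
      (Pl.ii_inner hL.lG hL.lZ hs hrI hr.1) ((i1.add i2).add i3) (by
        rw [← Measure.restrict_congr_set Ioo_ae_eq_Icc]
        refine (ae_restrict_iff' measurableSet_Ioo).2 (hd.mono fun x hx h => ?_)
        exact hx ⟨h.1, h.2.trans_le hr.2⟩)
    rw [intervalIntegral.integral_add (i1.add i2) i3, intervalIntegral.integral_add i1 i2,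
      intervalIntegral.integral_const_mul, intervalIntegral.integral_const_mul] at le
    rw [intervalIntegral.integral_const_mul] at e
    have := Pl.int_mono hm m0 hr
    linarith
  have a0 : 0 ≤ ‖y s‖ ^ 2 + ∫ r in s..t, m r :=
    add_nonneg (sq_nonneg _) (intervalIntegral.integral_nonneg hst fun u _ => m0 u)
  have g := Pl.gron (E := fun r => ‖y r‖ ^ 2) (fun r => sq_nonneg _) k0 N hst hE hk (by linarith)
    (a := ‖y s‖ ^ 2 + ∫ r in s..t, m r) fun r hr => by
      have h1 := key r hr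
      have h2 : 0 ≤ c * ∫ x in s..r, ‖Z x‖ ^ 2 :=
        mul_nonneg c0 (intervalIntegral.integral_nonneg hr.1 fun u _ => sq_nonneg _)
      linarith
  have p0 : 0 ≤ 2 ^ (N + 1) * (‖y s‖ ^ 2 + ∫ r in s..t, m r) := by positivity
  have p1 := mul_nonneg (abs_nonneg K) p0
  refine ⟨fun r hr => ?_, ?_⟩
  · have := g r hr
    beta_reduce at this
    linarith
  · have h1 := key t lt
    have h2 := Pl.int_le hst hE hk k0 g
    have h3 := mul_le_mul_of_nonneg_right (hK.trans (le_abs_self K)) p0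
    have h4 := mul_le_mul_of_nonneg_right (one_le_pow₀ (n := N + 1) (one_le_two (α := ℝ))) a0
    have h5 := sq_nonneg ‖y t‖
    linarith

end Pool.Agent.MP_ed9623_an.H77
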